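import Pool.Agent.T2h23.P5
import Pool.Agent.W52.TQ.Univ
import Pool.Agent.W52.TQ.Loc
import Pool.Agent.W503.TQ.Uni

/-!
# Smooth forces, small in a subcritical norm, which make every solution global

Let `Ω` be any bounded open set in `ℝ³`, `ν > 0`, and let `(u₀, f₀)` be any admissible data, of any
size. There are smooth fields `g(t,x)`, with compact support in `Ω` for bounded times, and equal to
zero for small times, which are as small as we want in `L^∞(0,∞; B^{-2}_{∞,r}(ℝ³))`, `r > 2`, even
with any prescribed decay in time, such that the Navier-Stokes equations with the force `f₀ + g`,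
the boundary condition `u = 0` and the initial velocity `u₀` have a global strong solution `u` (and
only one Leray-Hopf solution). The norm of `L^∞(B^{-2}_{∞,r})` is subcritical: in the scaling of the
equations, `L^∞(B^{-3}_{∞,r})` is invariant.

Moreover, `u` can be made to follow, in the norm of `V'`, with any prescribed precision
`η(t) → 0`, and for all times after an arbitrarily short initial interval, any prescribed
continuous curve `v` in `L²_σ(Ω)`, which need not have anything to do with the equations.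

The proof: a smooth curve `b` of test fields, which is near to `v`, is a solution with the force
`∂ₜb - νΔb + (b·∇)b`, which may be large. The difference `D(t)` between this force and `f₀` is
approximated in `V'` by sums of `div (f² n ⊗ n)`, with test functions `f`, unit vectors `n`, and
nonnegative coefficients which depend on `t`: up to gradients, both signs are possible. The field
`div (f² n ⊗ n)` is compensated by waves `w = f(x) sin(N k·x) n`, `k ⊥ n`, since the average of
`(w·∇)w` is half of it, whereas `νΔw` has a high frequency. In order that `νΔw` is small in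
`B^{-2}_{∞,r}`, the field is divided into many equal parts, each of which is compensated by waves
with a frequency which is much higher than all the preceding ones: here `r > 2` is used. After
each step the remaining errors are small in `H¹(0,T;V')`, and they are removed by the stability of
strong solutions. This is done on short time intervals, and the passage from one time interval to
the next one is made by convex combinations of solutions, which are treated in the same way.
-/

set_option autoImplicit false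

open MeasureTheory Set
open scoped InnerProductSpace ENNReal ContDiff

namespace Pool.Agent.Results.MP_fd8964_an.SmallSmoothForces

open H772R2.NS.Pub Pool.Agent.W795.TQ Pool.Agent.T2h23

/-- Let `Ω` be a bounded open set, `ν > 0`, `r > 2`, `ε > 0`, let `η` be a continuous positive
function, let `(u0, f0)` be admissible data, where `f0` is given by `⟨f0(t), φ⟩ = (F0(t), ∇φ)`, and
let `v` be a continuous curve in `L²_σ(Ω)`. There are a smooth field `g(t,x)`, a force `f`, given by
`⟨f(t), φ⟩ = (F(t), ∇φ)`, and `u` such that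
* `g(t) = 0` for all `t ≤ a`, for some `a > 0`, and for every `T` the supports of `g(t)`, `t ≤ T`,
  are contained in a compact subset of `Ω`;
* `‖g(t)‖ ≤ η(t)` in `B^{-2}_{∞,r}(ℝ³)` for every `t`;
* `⟨f(t), φ⟩ = ⟨f0(t), φ⟩ + (g(t), φ)`, and `(u0, f)` is admissible;
* `u(0) = u0`, `u` is a strong solution on `[0,∞)` with the force `f`, and every Leray-Hopf
  solution with the same force and the same initial velocity is equal to `u`;
* `|(u(t) - v(t), w)| ≤ η(t) ‖∇w‖` for all `w ∈ V = H¹_{0,σ}(Ω)`, `t ≥ ε`. -/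
theorem result :
    ∀ (Ω : Set R3), IsOpen Ω → Bornology.IsBounded Ω → ∀ (ν r ε : ℝ), 0 < ν → 2 < r → 0 < ε →
    ∀ η : ℝ → ℝ, Continuous η → (∀ t, 0 < η t) →
    ∀ (u0 : L2 Ω R3) (F0 F0' : ℝ → L2 Ω Mat), IsAdmissible Ω ν u0 F0 F0' →
    ∀ v : ℝ → L2 Ω R3, ContinuousOn v (Ici 0) → (∀ t, 0 ≤ t → v t ∈ L2sigma Ω) →
    ∃ (g : ℝ → R3 → R3) (F F' : ℝ → L2 Ω Mat) (u : ℝ → L2 Ω R3),
      ContDiff ℝ ∞ (fun p : ℝ × R3 => g p.1 p.2) ∧
      (∃ a : ℝ, 0 < a ∧ ∀ t ≤ a, ∀ x, g t x = 0) ∧
      (∀ T : ℝ, ∃ K : Set R3, IsCompact K ∧ K ⊆ Ω ∧ ∀ t ≤ T, ∀ x, x ∉ K → g t x = 0) ∧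
      (∀ t, besov2 r (g t) ≤ ENNReal.ofReal (η t)) ∧
      (∀ t, 0 ≤ t → ∀ φ, IsTest Ω φ → ∫ x in Ω, ⟪(F t).fn x, jac φ x⟫_ℝ
        = (∫ x in Ω, ⟪(F0 t).fn x, jac φ x⟫_ℝ) + ∫ x in Ω, ⟪g t x, φ x⟫_ℝ) ∧
      IsAdmissible Ω ν u0 F F' ∧ u 0 = u0 ∧ IsForcedStrong Ω ν F u ∧ IsForcedOnly Ω ν F u ∧
      ∀ t, ε ≤ t → ∀ (w : L2 Ω R3) (z : L2 Ω Mat), (w, z) ∈ H1graph Ω →
        |⟪u t - v t, w⟫_ℝ| ≤ η t * ‖z‖ := by
  intro Ω hΩ hb ν r ε hν hr hε η hη hηp u0 F0 F0' hadm v hv hvs
  obtain ⟨g, F, F', u, h1, h2, h3, h4, h5, h6, h7, h8, h9, h10⟩ :=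
    small_mid (Ω := (show Set H772R2.NS.E3 from Ω)) Pool.Agent.W52.TQ.proof_loc
      Pool.Agent.W503.TQ.proof_uni Pool.Agent.W52.TQ.proof_univ hΩ hb hν hr hε hη hηp hadm hv hvs
  exact ⟨g, F, F', u, h1, h2, h3, h4,
    fun t _ φ hφ => h5 t φ ((H772R2.NS.Pub.isTest_iff φ).mp hφ), h6, h7, h8, h9, h10⟩

end Pool.Agent.Results.MP_fd8964_an.SmallSmoothForces
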