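import Pool.Agent.T2h23.P3
import Pool.Agent.W52.TQ.Univ
import Pool.Agent.W52.TQ.Loc
import Pool.Agent.W503.TQ.Uni
import Pool.Agent.W701.HE.Reg
import Pool.Agent.W405.HE.Cmp

/-!
# In smooth domains, global regularity holds for a dense set of initial velocities

Let `Ω` be any bounded domain in `ℝ³` with smooth boundary. Near every element `u₀` of
`V = H¹_{0,σ}(Ω)`, of any size, in the scale invariant norms of `B^{-1}_{∞,r}(ℝ³)`, `2 < r ≤ ∞`,
there is a smooth divergence free field `φ` with compact support in `Ω` for which the Navier-Stokes
equations with the boundary condition `u = 0` have a global strong solution (and only one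
Leray-Hopf solution). Moreover, after an arbitrarily short time the solution is as near as we want
to any prescribed global strong solution `v`, which need not have anything to do with `u₀`: for
instance to `v = 0`.

The proof: let `b` be a test field with a global strong solution `v`, and let `D` be any test field.
One looks for initial velocities near `b + D` with global strong solutions near `v`.
* Displacements `D = curl div M`, where `M` has compact support in `Ω`, are obtained with lacunary
  families of high frequency waves, as in `Steering`. In this way one cannot change, for instance,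
  the total angular momentum, or the circulation around the holes of `Ω`.
* The boundary can absorb them. Let `ρ` be a defining function of `Ω` with `|∇ρ| = 1` on the
  boundary. The boundary layers `curl(P(ρ) A)`, where `P(ρ) = m (1 - exp(-ρ²n⁴))` is the primitive
  of a Gaussian with the width `n^{-2}`, disappear after a time of the order `n^{-4}`. Their
  amplitude is of the order `m n²`, with a small but fixed number `m`; an abstract perturbation
  theorem (energy estimates for the solution and its time derivative, with weights) shows that the
  strong solution with such an initial velocity exists, and that it is near `v`.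
* In a connected open set, `curl (f c)` with `∫ f = 0` and constant `c` is the limit of fields
  `curl div M`. This and the layers give `D = curl A` for all `A` with compact support, and with a
  vector potential of `D` and a layer tangential to the boundary one obtains all test fields `D`.
-/

set_option autoImplicit false

open MeasureTheory Set
open scoped InnerProductSpace ENNReal ContDiff

namespace Pool.Agent.Results.MP_fd8964_an.SmoothDomainsDense

open H772R2.NS.Pub Pool.Agent.W795.TQ Pool.Agent.T2h23
open Pool.Agent.Y303.LV (heat)

/-- Let `Ω` be a bounded domain with smooth boundary, `ν > 0`, `r > 2`, `ε > 0`. Let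
`u0 ∈ H¹_{0,σ}(Ω)` and let `v` be any strong solution on `[0,∞)`, without force, of the
Navier-Stokes equations in `Ω`. There is a smooth divergence free `φ` with compact support in `Ω`
such that
* `φ - u0` (`u0` extended by zero) has norms at most `ε` in `B^{-1}_{∞,∞}(ℝ³)` and in
  `B^{-1}_{∞,r}(ℝ³)`;
* there is `u` with `u(0) = φ` which is a strong solution on `[0,∞)`, without force, and every
  Leray-Hopf solution with the same initial velocity is equal to `u`;
* `‖u(t) - v(t)‖_{L²(Ω)} ≤ ε` for all `t ≥ ε`. -/
theorem result :
    ∀ (Ω : Set R3), IsSmoothDomain Ω → ∀ (ν r ε : ℝ), 0 < ν → 2 < r → 0 < ε →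
    ∀ u0 : L2 Ω R3, u0 ∈ H10sigma Ω → ∀ v : ℝ → L2 Ω R3, IsGlobalStrong Ω ν v →
    ∃ (φ : R3 → R3) (u : ℝ → L2 Ω R3), IsTest Ω φ ∧
      (∀ s : ℝ, 0 < s → ∀ x, √s * ‖heat s (fun y => φ y - ext u0 y) x‖ ≤ ε) ∧
      besov r (fun y => φ y - ext u0 y) ≤ ENNReal.ofReal ε ∧
      IsClass (u 0) φ ∧ IsGlobalStrong Ω ν u ∧ IsOnlyLerayHopf Ω ν u ∧
      ∀ t : ℝ, ε ≤ t → ‖u t - v t‖ ≤ ε := by
  intro Ω hΩ ν r ε hν hr hε u0 hu0 v hv
  obtain ⟨z0, hz0⟩ := hu0
  obtain ⟨φ, u, h1, h2, h3, h4, h5, h6, h7⟩ := dense_pub (Ω := (show Set H772R2.NS.E3 from Ω))
    Pool.Agent.W52.TQ.proof_loc Pool.Agent.W503.TQ.proof_uni Pool.Agent.W52.TQ.proof_univ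
    (Pool.Agent.W701.HE.proof Pool.Agent.W405.HE.Cmp.proof) hΩ hν hr hε
    (H772R2.NS.Pub.mem_pub.mpr hz0) hv
  exact ⟨φ, u, (H772R2.NS.Pub.isTest_iff φ).mpr h1, h2, h3, h4, h5, h6, h7⟩

end Pool.Agent.Results.MP_fd8964_an.SmoothDomainsDense
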