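import Pool.Agent.T2h23.P4
import Pool.Agent.W52.TQ.Univ
import Pool.Agent.W52.TQ.Loc
import Pool.Agent.W503.TQ.Uni
import Pool.Agent.W701.HE.Reg
import Pool.Agent.W405.HE.Cmp

/-!
# Forces with global strong solutions are dense, in critical norms, for every initial velocity

Let `Ω` be any bounded domain in `ℝ³` with smooth boundary, and let `(u₀, f₀)` be any admissible
data, of any size. There are forces `f = f₀ + g + E`, where `g` is as small as we want in
`L¹(0,∞; B^{-1}_{∞,r}(ℝ³))`, `2 < r < ∞`, and `E` is as small as we want in `L^q(0,∞; V')`,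
`q < ∞`, for which the Navier-Stokes equations with the boundary condition `u = 0` and the initial
velocity `u₀` have a global strong solution `u` (and only one Leray-Hopf solution). Both norms are
scaling invariant for `q = 4`, and the second one is subcritical for `q > 4`.

Moreover, `u` can be made to follow any prescribed continuous curve `v` in `L²_σ(Ω)`, which need
not have anything to do with the Navier-Stokes equations, except for times in a set of arbitrarily
small measure; outside of this set `f = f₀`.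

The proof: the time axis is divided into short intervals. On each of them
* one starts from the solution `x` with the force `f₀`, and passes by `(1 - s) x + s Φ`, where
  `s(t)` goes from `0` to `1` in a very short time, to a solution `Φ` without force. Here
  `Φ(0) - x(0)` is small in `B^{-1}_{∞,r}`, and `Φ(t)` is near a given test field `b` in `L²`, and
  bounded in `V`, at some small time `t`. The existence of `Φ` is a local version of the
  theorem `SmoothDomainsDense` (lacunary families of high frequency waves and boundary layers);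
* the force of the convex combination is `(1 - s) f₀ + s' (Φ - x) + s (1 - s) div ((Φ - x) ⊗ (Φ - x))`;
* then the force `f₀` is switched on again. The following strong solution with the force `f₀`
  exists for a time which depends only on `f₀` and on the bound of `b` in `V`, so that finitely
  many steps suffice for every bounded time interval.
-/

set_option autoImplicit false

open MeasureTheory Set
open scoped InnerProductSpace ENNReal ContDiff

namespace Pool.Agent.Results.MP_fd8964_an.TrackingForces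

open H772R2.NS.Pub Pool.Agent.W795.TQ Pool.Agent.T2h23

/-- Let `Ω` be a bounded domain with smooth boundary, `ν > 0`, `r > 2`, `q > 0`, `ε > 0`, let
`(u0, f0)` be admissible data, where `f0` is given by `⟨f0(t), φ⟩ = (F0(t), ∇φ)`, and let `v` be
a continuous curve in `L²_σ(Ω)`. There is a force `f`, given by `⟨f(t), φ⟩ = (F(t), ∇φ)`, and `u`
such that
* `(u0, f)` is admissible, and `⟨f(t), φ⟩ = ⟨f0(t), φ⟩ + (g(t), φ) + (E(t), ∇φ)`, where `g(t) ∈ V`
  and `‖g(t)‖` in `B^{-1}_{∞,r}(ℝ³)` is at most `η(t)`, `∫₀^∞ η ≤ ε`, and `∫₀^∞ ‖E‖^q ≤ ε`;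
* `F(t) = F0(t)` and `‖u(t) - v(t)‖_{L²(Ω)} ≤ ε` except for times `t` in a set of measure at
  most `ε`;
* `u(0) = u0`, `u` is a strong solution on `[0,∞)` with the force `f`, and every Leray-Hopf
  solution with the same force and the same initial velocity is equal to `u`. -/
theorem result :
    ∀ (Ω : Set R3), IsSmoothDomain Ω → ∀ (ν r q ε : ℝ), 0 < ν → 2 < r → 0 < q → 0 < ε →
    ∀ (u0 : L2 Ω R3) (F0 F0' : ℝ → L2 Ω Mat), IsAdmissible Ω ν u0 F0 F0' →
    ∀ v : ℝ → L2 Ω R3, ContinuousOn v (Ici 0) → (∀ t, 0 ≤ t → v t ∈ L2sigma Ω) →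
    ∃ (F F' : ℝ → L2 Ω Mat) (u : ℝ → L2 Ω R3) (g : ℝ → L2 Ω R3) (E : ℝ → L2 Ω Mat)
      (η : ℝ → ℝ≥0∞),
      IsAdmissible Ω ν u0 F F' ∧
      (∀ t, 0 ≤ t → ∀ φ, IsTest Ω φ →
        ∫ x in Ω, ⟪(F t).fn x, jac φ x⟫_ℝ = (∫ x in Ω, ⟪(F0 t).fn x, jac φ x⟫_ℝ)
          + (∫ x in Ω, ⟪(g t).fn x, φ x⟫_ℝ) + ∫ x in Ω, ⟪(E t).fn x, jac φ x⟫_ℝ) ∧
      AEStronglyMeasurable g (volume.restrict (Ioi 0)) ∧ (∀ t, 0 < t → g t ∈ H10sigma Ω) ∧
      Measurable η ∧ (∀ t, 0 < t → besov r (ext (g t)) ≤ η t) ∧
      ∫⁻ t in Ioi 0, η t ≤ ENNReal.ofReal ε ∧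
      AEStronglyMeasurable E (volume.restrict (Ioi 0)) ∧
      ∫⁻ t in Ioi 0, ENNReal.ofReal (‖E t‖ ^ q) ≤ ENNReal.ofReal ε ∧
      volume {t : ℝ | 0 < t ∧ (F t ≠ F0 t ∨ ε < ‖u t - v t‖)} ≤ ENNReal.ofReal ε ∧
      u 0 = u0 ∧ IsForcedStrong Ω ν F u ∧ IsForcedOnly Ω ν F u := by
  intro Ω hΩ ν r q ε hν hr hq hε u0 F0 F0' hadm v hv hvs
  obtain ⟨F, F', u, g, E, η, h1, h2, h3, h4, h5, h6, h7, h8, h9, h10, h11, h12, h13⟩ :=
    track_mid (Ω := (show Set H772R2.NS.E3 from Ω)) Pool.Agent.W52.TQ.proof_loc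
      Pool.Agent.W503.TQ.proof_uni Pool.Agent.W52.TQ.proof_univ
      (Pool.Agent.W701.HE.proof Pool.Agent.W405.HE.Cmp.proof) hΩ hν hr hq hε hadm hv hvs
  refine ⟨F, F', u, g, E, η, h1, fun t ht φ hφ => h2 t ht φ ((H772R2.NS.Pub.isTest_iff φ).mp hφ),
    h4, h3, h6, h8, h7, h5, ?_, h10, h11, h12, h13⟩
  exact (lintegral_mono_ae (by
    filter_upwards [ae_restrict_mem measurableSet_Ioi] with t ht
    exact h9 t ht)).trans h7

end Pool.Agent.Results.MP_fd8964_an.TrackingForces
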