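import Pool.Agent.T2h23.GY.All

/-!
# Fixed fields, small in a critical norm, whose Lorentz forces make all large solutions global

Let `Ω` be any bounded open set in `ℝ³`, `ν > 0`. Consider the Navier-Stokes equations in `Ω` with
the boundary condition `u = 0` and with the additional force `u × b`, where `b = ∇β(x)` is a
gradient which does not depend on the time. This force does no work, since `(u × b)·u = 0`: the
energy inequality is the same as for the Navier-Stokes equations, and it is a linear term of order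
zero. The theorem: given `R`, `T` and a precompact set `𝒢` of forces, there is a trigonometric
polynomial `β`, with `∇β` as small as we want in the norm of the critical space
`B^{-1}_{∞,r}(ℝ³)`, `r > 2`, such that for *all* admissible data of size at most `R`, with forces
in `𝒢`, the equations with the force `f₀ + u × ∇β` have a global strong solution `u`, which is the
only Leray-Hopf solution, with a bound of `‖∇u(t)‖` which only depends on `Ω, ν, T, R, 𝒢, r` and
the prescribed smallness, and `‖u(t)‖ ≤ ε` for all `t ≥ ε`.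

So there is one field `∇β` for all data of size `R`. It only contributes the force `u × ∇β`, and
if `u` is given then `u` is a solution of the Navier-Stokes equations with the force `F`, which is
again in the class of the problem. The field `∇β` is large in `L^∞`; it is a sum of `3k` waves
`A N_l cos(N_l x_j) e_j` with the frequencies `N_l = (n+2)^l`, where `k` is large and `A² k` is
given. In the limit `n → ∞`, `u × ∇β` acts as the friction `-κu`, `κ = A²k/ν`: the force
`u × A N cos(Nx_j) e_j` generates a velocity of size `1/N`, whose gradient is of size `1`, and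
whose product with the field gives the average `-A²/(2ν)` times the part of `u` which is
orthogonal to `e_j`; the boundary condition does not matter. The friction makes the solution
small in a short time. The initial layer is the main difficulty: the bounds there are uniform in
`κ` and in `n`.
-/

set_option autoImplicit false

open MeasureTheory Set
open scoped InnerProductSpace ENNReal ContDiff

namespace Pool.Agent.Results.MP_fd8964_an.WorkFreeForces

open H772R2.NS.Pub Pool.Agent.W795.TQ Pool.Agent.T2h23 Pool.Agent.T2h23.GY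

/-- Let `Ω` be a bounded open set, `ν, T, R, ε > 0`, `r > 2`, and let `𝒢` be a totally bounded
subset of `L²(Ω; ℝ^{3×3})`. There are a trigonometric polynomial `β` and `Λ` such that
`‖∇β‖ ≤ ε` in `B^{-1}_{∞,r}(ℝ³)` and such that the following holds for all admissible data
`(u0, f0)`, where `f0` is given by `⟨f0(t), φ⟩ = (F0(t), ∇φ)`, with `‖∇u0‖ ≤ R`, `F0(t) ∈ 𝒢`,
`F0(t) = 0` for `t ≥ T`, and `∫ ‖F0'‖² ≤ R²`. There are a force `f`, given by
`⟨f(t), φ⟩ = (F(t), ∇φ)`, and `u` such that
* `⟨f(t), φ⟩ = ⟨f0(t), φ⟩ + (u(t) × ∇β, φ)`, and `(u0, f)` is admissible;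
* `u(0) = u0`, `u` is a strong solution on `[0,∞)` with the force `f`, and every Leray-Hopf
  solution with the force `f` and the same initial velocity is equal to `u`;
* every Leray-Hopf solution `w` of the equations with the force `f0 + w × ∇β` with the same initial
  velocity is equal to `u`;
* `‖∇u(t)‖ ≤ Λ` for all `t ≥ 0`, and `‖u(t)‖ ≤ ε` for all `t ≥ ε`. -/
theorem result :
    ∀ (Ω : Set R3), IsOpen Ω → Bornology.IsBounded Ω → ∀ (ν T R ε r : ℝ), 0 < ν → 0 < T → 0 < R →
    0 < ε → 2 < r → ∀ 𝒢 : Set (L2 Ω Mat), TotallyBounded 𝒢 →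
    ∃ (A : ℝ) (k n : ℕ) (Λ : ℝ), besov r (gradR (trigPot A k n)) ≤ ENNReal.ofReal ε ∧
      ∀ (u0 : L2 Ω R3) (z0 : L2 Ω Mat) (F0 F0' : ℝ → L2 Ω Mat), IsAdmissible Ω ν u0 F0 F0' →
        (u0, z0) ∈ H1graph Ω → ‖z0‖ ≤ R → (∀ t, 0 ≤ t → F0 t ∈ 𝒢) → (∀ t, T ≤ t → F0 t = 0) →
        (∀ T' : ℝ, 0 < T' → (∫ s in (0 : ℝ)..T', ‖F0' s‖ ^ 2) ≤ R ^ 2) →
        ∃ (F F' : ℝ → L2 Ω Mat) (u : ℝ → L2 Ω R3),
          (∀ t φ, IsTest Ω φ → ∫ x in Ω, ⟪(F t).fn x, jac φ x⟫_ℝ
            = (∫ x in Ω, ⟪(F0 t).fn x, jac φ x⟫_ℝ)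
              + ∫ x in Ω, ⟪crossProd ((u t).fn x) (gradR (trigPot A k n) x), φ x⟫_ℝ) ∧
          IsAdmissible Ω ν u0 F F' ∧ u 0 = u0 ∧ IsForcedStrong Ω ν F u ∧ IsForcedOnly Ω ν F u ∧
          (∀ τ : ℝ, 0 < τ → ∀ (w : ℝ → L2 Ω R3) (D : ℝ → L2 Ω Mat),
            IsLerayHopfCross Ω ν τ (gradR (trigPot A k n)) F0 w D → w 0 = u0 →
            ∀ t ∈ Icc 0 τ, w t = u t) ∧
          (∀ t, 0 ≤ t → ∃ ζ : L2 Ω Mat, (u t, ζ) ∈ H1graph Ω ∧ ‖ζ‖ ≤ Λ) ∧
          ∀ t, 0 ≤ t → ε ≤ t → ‖u t‖ ≤ ε := by
  intro Ω hΩ hb ν T R ε r hν hT hR hε hr 𝒢 h𝒢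
  obtain ⟨A, k, n, Λ, hbes, key⟩ := gyro_pub
    (Ω := (show Set H772R2.NS.E3 from Ω)) a_fin a_gl MU.t_MU a_fb a_cd C2.t_C2 CC.t_CC a_bs a_uq
    Pool.Agent.W52.TQ.proof_univ Pool.Agent.W503.TQ.proof_uni hΩ hb hν hT hR hε hr h𝒢
  refine ⟨A, k, n, Λ, hbes, ?_⟩
  intro u0 z0 F0 F0' hadm hmem hz hFG hFT hFi
  obtain ⟨F, F', u, h1, h2⟩ := key u0 z0 F0 F0' hadm hmem hz hFG hFT hFi
  exact ⟨F, F', u, fun t φ hφ => h1 t φ ((H772R2.NS.Pub.isTest_iff φ).mp hφ), h2⟩

end Pool.Agent.Results.MP_fd8964_an.WorkFreeForces
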